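import Mathlib
import Pool.Agent.R143.MonoPath

/-!
# The edges between the two ends of many lines on a monotone path

A bundle consists of points `P k` and `Q k`, `k < L`, which lie almost on a line of slope `ρ z` with an integer
`z`, the points `Q k` being far to the right of the points `P k`. If the integers `z` of the bundles are distinct,
a monotone path contains few of the segments `P k Q k'` of all bundles.
-/

set_option autoImplicit false

namespace Pool.Agent.U583.MC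

open Pool.Agent.R143.MonoPath

variable {β : Type}

/-- The properties of the bundles. -/
structure Bundles (B : Finset β) (L : ℕ) (P Q : β → ℕ → Plane) (z : β → ℤ) (ρ w η : ℝ) : Prop where
  slope : ∀ b ∈ B, 0 ≤ ρ * z b ∧ ρ * z b ≤ 2
  inj : ∀ b ∈ B, ∀ b' ∈ B, z b = z b' → b = b'
  step : ∀ b ∈ B, ∀ k < L, ∀ k' < L, ∃ a, w ≤ a ∧ |(Q b k' - P b k) 0 - a| ≤ η ∧
    |(Q b k' - P b k) 1 - a * (ρ * z b)| ≤ η
  injP : ∀ b ∈ B, ∀ k < L, ∀ k' < L, P b k = P b k' → k = k'
  injQ : ∀ b ∈ B, ∀ k < L, ∀ k' < L, Q b k = Q b k' → k = k'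
  edge : ∀ b ∈ B, ∀ b' ∈ B, ∀ k < L, ∀ k' < L, ∀ l < L, ∀ l' < L,
    P b k = P b' l → Q b k' = Q b' l' → b = b'
  rho_pos : 0 < ρ
  w_pos : 0 < w
  eta_nonneg : 0 ≤ η
  eta_lt : η < w

/-- `|u 0| + |u 1|` -/
noncomputable def one (u : Plane) : ℝ := |u 0| + |u 1|

/-- the rate of change in the direction `u` along the bundle -/
noncomputable def rate (z : β → ℤ) (ρ : ℝ) (u : Plane) (b : β) : ℝ := u 0 + ρ * z b * u 1

lemma one_pos {u : Plane} (hu : u ≠ 0) : 0 < one u := by
  unfold one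
  by_contra hc
  apply hu
  have h0 : |u 0| = 0 := by
    have := abs_nonneg (u 0)
    have := abs_nonneg (u 1)
    linarith
  have h1 : |u 1| = 0 := by
    have := abs_nonneg (u 0)
    have := abs_nonneg (u 1)
    linarith
  ext i
  fin_cases i
  · exact abs_eq_zero.mp h0
  · exact abs_eq_zero.mp h1

section

variable {B : Finset β} {L : ℕ} {P Q : β → ℕ → Plane} {z : β → ℤ} {ρ w η : ℝ}
  (H : Bundles B L P Q z ρ w η) (u : Plane)

include H

lemma step_inner {b : β} (hb : b ∈ B) {k k' : ℕ} (hk : k < L) (hk' : k' < L) :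
    ∃ a, w ≤ a ∧ |inner ℝ (Q b k') u - inner ℝ (P b k) u - a * rate z ρ u b| ≤ η * one u := by
  obtain ⟨a, h1, h2, h3⟩ := H.step b hb k hk k' hk'
  refine ⟨a, h1, ?_⟩
  rw [← inner_sub_left, inner_eq]
  have e : (Q b k' - P b k) 0 * u 0 + (Q b k' - P b k) 1 * u 1 - a * rate z ρ u b =
      ((Q b k' - P b k) 0 - a) * u 0 + ((Q b k' - P b k) 1 - a * (ρ * z b)) * u 1 := by
    unfold rate
    ring
  rw [e]
  refine (abs_add_le _ _).trans ?_
  rw [abs_mul, abs_mul]
  unfold one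
  rw [mul_add]
  exact add_le_add (mul_le_mul_of_nonneg_right h2 (abs_nonneg _))
    (mul_le_mul_of_nonneg_right h3 (abs_nonneg _))

lemma pos_of_rate {b : β} (hb : b ∈ B) {k k' : ℕ} (hk : k < L) (hk' : k' < L)
    (h : η / w * one u < rate z ρ u b) : inner ℝ (P b k) u < inner ℝ (Q b k') u := by
  obtain ⟨a, h1, h2⟩ := step_inner H u hb hk hk'
  have hw := H.w_pos
  have h3 : η * one u < w * rate z ρ u b := by
    rw [div_mul_eq_mul_div, div_lt_iff₀ hw] at h
    linarith
  have h0 : 0 ≤ η / w * one u := mul_nonneg (div_nonneg H.eta_nonneg hw.le) (by unfold one; positivity)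
  have h4 : w * rate z ρ u b ≤ a * rate z ρ u b := mul_le_mul_of_nonneg_right h1 (by linarith)
  have h5 := (abs_le.mp h2).1
  linarith

lemma neg_of_rate {b : β} (hb : b ∈ B) {k k' : ℕ} (hk : k < L) (hk' : k' < L)
    (h : rate z ρ u b < -(η / w * one u)) : inner ℝ (Q b k') u < inner ℝ (P b k) u := by
  obtain ⟨a, h1, h2⟩ := step_inner H u hb hk hk'
  have hw := H.w_pos
  have h3 : η * one u < w * (-rate z ρ u b) := by
    have h' : η / w * one u < -rate z ρ u b := by linarith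
    rw [div_mul_eq_mul_div, div_lt_iff₀ hw] at h'
    linarith
  have h0 : 0 ≤ η / w * one u := mul_nonneg (div_nonneg H.eta_nonneg hw.le) (by unfold one; positivity)
  have h4 : w * (-rate z ρ u b) ≤ a * (-rate z ρ u b) := mul_le_mul_of_nonneg_right h1 (by linarith)
  have h5 := (abs_le.mp h2).2
  linarith

lemma far_of_rate {b : β} (hb : b ∈ B) {k k' : ℕ} (hk : k < L) (hk' : k' < L) :
    w * |rate z ρ u b| - η * one u ≤ |inner ℝ (Q b k') u - inner ℝ (P b k) u| := by
  obtain ⟨a, h1, h2⟩ := step_inner H u hb hk hk'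
  have h3 : w * |rate z ρ u b| ≤ |a * rate z ρ u b| := by
    rw [abs_mul, abs_of_nonneg (H.w_pos.le.trans h1)]
    exact mul_le_mul_of_nonneg_right h1 (abs_nonneg _)
  have h4 := abs_sub_abs_le_abs_sub (a * rate z ρ u b)
    (inner ℝ (Q b k') u - inner ℝ (P b k) u)
  rw [abs_sub_comm (a * rate z ρ u b)] at h4
  linarith

lemma ne_PQ {b b' : β} (hb : b ∈ B) (hb' : b' ∈ B) {k k' l l' : ℕ} (hk : k < L) (hk' : k' < L)
    (hl : l < L) (hl' : l' < L) (h1 : P b k = Q b' l') (h2 : Q b k' = P b' l) : False := by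
  obtain ⟨a, e1, e2, -⟩ := H.step b hb k hk k' hk'
  obtain ⟨a', f1, f2, -⟩ := H.step b' hb' l hl l' hl'
  have g1 := (abs_le.mp e2).1
  have g2 := (abs_le.mp f2).1
  have h3 : (Q b k' - P b k) 0 = -(Q b' l' - P b' l) 0 := by
    rw [h1, h2]
    simp
  have := H.eta_lt
  linarith

lemma gap {θ : ℝ} (hu : u ≠ 0) (hθ : θ ≤ 1 / 4) {b b' : β} (hb : b ∈ B)
    (h : |rate z ρ u b| ≤ θ * one u) (h' : |rate z ρ u b'| ≤ θ * one u) :
    ρ * |(z b : ℝ) - z b'| ≤ 8 * θ := by
  have hU := one_pos hu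
  obtain ⟨s1, s2⟩ := H.slope b hb
  have h4 : one u ≤ 4 * |u 1| := by
    have e : u 0 = rate z ρ u b - ρ * z b * u 1 := by
      unfold rate
      ring
    have h5 : |u 0| ≤ |rate z ρ u b| + ρ * z b * |u 1| := by
      rw [e]
      refine (abs_sub _ _).trans ?_
      rw [abs_mul, abs_of_nonneg s1]
    have h6 : ρ * z b * |u 1| ≤ 2 * |u 1| := mul_le_mul_of_nonneg_right s2 (abs_nonneg _)
    have h7 : θ * one u ≤ 1 / 4 * one u := mul_le_mul_of_nonneg_right hθ hU.le
    unfold one at *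
    linarith
  have h1 : 0 < |u 1| := by linarith
  have h8 : ρ * |(z b : ℝ) - z b'| * |u 1| ≤ 2 * θ * one u := by
    have e : ρ * |(z b : ℝ) - z b'| * |u 1| = |rate z ρ u b - rate z ρ u b'| := by
      have e1 : rate z ρ u b - rate z ρ u b' = ρ * ((z b : ℝ) - z b') * u 1 := by
        unfold rate
        ring
      rw [e1, abs_mul, abs_mul, abs_of_pos H.rho_pos]
    rw [e]
    have := abs_sub (rate z ρ u b) (rate z ρ u b')
    linarith
  have hθ0 : 0 ≤ θ := by
    by_contra hc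
    have : θ * one u < 0 := mul_neg_of_neg_of_pos (not_le.mp hc) hU
    have := abs_nonneg (rate z ρ u b)
    linarith
  have h9 : 2 * θ * one u ≤ 8 * θ * |u 1| := by nlinarith
  exact le_of_mul_le_mul_right (h8.trans h9) h1

/-- at most one bundle crosses -/
lemma cross_unique (hu : u ≠ 0) (hη : 8 * η < ρ * w) (hη2 : η / w ≤ 1 / 4) {b b' : β} (hb : b ∈ B)
    (hb' : b' ∈ B) (h : |rate z ρ u b| ≤ η / w * one u) (h' : |rate z ρ u b'| ≤ η / w * one u) :
    b = b' := by
  have h1 := gap H u hu hη2 hb h h'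
  apply H.inj b hb b' hb'
  have hw := H.w_pos
  have hr := H.rho_pos
  have h2 : |(z b : ℝ) - z b'| < 1 := by
    by_contra hc
    have h3 : ρ * 1 ≤ ρ * |(z b : ℝ) - z b'| := mul_le_mul_of_nonneg_left (not_lt.mp hc) hr.le
    have h4 : ρ ≤ 8 * (η / w) := by linarith
    rw [← mul_div_assoc, le_div_iff₀ hw] at h4
    linarith
  have h3 : |z b - z b'| < 1 := by exact_mod_cast h2
  have := Int.abs_lt_one_iff.mp h3
  omega

/-- few bundles with a small rate -/
lemma card_small (hu : u ≠ 0) {δ : ℝ} (hδ : δ ≤ 1 / 4) {M : ℕ} (hM : 8 * δ ≤ ρ * M) (C : Finset β)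
    (hC : C ⊆ B) (h : ∀ b ∈ C, |rate z ρ u b| ≤ δ * one u) : C.card ≤ M + 1 := by
  classical
  have hinj : Set.InjOn z C := fun b hb b' hb' hz => H.inj b (hC hb) b' (hC hb') hz
  rw [← Finset.card_image_of_injOn hinj]
  rcases (C.image z).eq_empty_or_nonempty with he | hne
  · rw [he]
    simp
  obtain ⟨z0, hz0, hmin⟩ := (C.image z).exists_min_image id hne
  have hsub : C.image z ⊆ Finset.Icc z0 (z0 + M) := by
    intro x hx
    rw [Finset.mem_Icc]
    refine ⟨hmin x hx, ?_⟩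
    obtain ⟨b, hb, rfl⟩ := Finset.mem_image.mp hx
    obtain ⟨b', hb', rfl⟩ := Finset.mem_image.mp hz0
    have h1 := gap H u hu hδ (hC hb) (h b hb) (h b' hb')
    have h2 : ρ * |(z b : ℝ) - z b'| ≤ ρ * M := h1.trans hM
    have h3 : |(z b : ℝ) - z b'| ≤ M := le_of_mul_le_mul_left h2 H.rho_pos
    have h4 : (z b : ℝ) - z b' ≤ M := (le_abs_self _).trans h3
    have h5 : z b - z b' ≤ M := by exact_mod_cast h4
    omega
  refine (Finset.card_le_card hsub).trans ?_
  rw [Int.card_Icc]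
  omega

end

end Pool.Agent.U583.MC
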