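import Mathlib
import Pool.Agent.U583.MC.Core

/-!
# The number of the segments of the bundles on one monotone path
-/

set_option autoImplicit false

namespace Pool.Agent.U583.MC

open Pool.Agent.R143.MonoPath

section path

variable {t : ℕ} {v : Fin t → Plane} {u : Plane}

/-- the heights increase along the path -/
lemma mono_path (hm : ∀ i j : Fin t, (j : ℕ) = i + 1 → 0 < inner ℝ (v j - v i) u) {i j : Fin t}
    (h : i < j) : inner ℝ (v i) u < inner ℝ (v j) u := by
  have key : ∀ d : ℕ, ∀ i j : Fin t, (j : ℕ) = i + 1 + d → inner ℝ (v i) u < inner ℝ (v j) u := by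
    intro d
    induction d with
    | zero =>
      intro i j hij
      have := hm i j (by omega)
      rw [inner_sub_left] at this
      linarith
    | succ d ih =>
      intro i j hij
      have h1 := ih i ⟨i + 1 + d, by have := j.2; omega⟩ rfl
      have h2 := hm ⟨i + 1 + d, by have := j.2; omega⟩ j (by
        show (j : ℕ) = (i + 1 + d) + 1
        omega)
      rw [inner_sub_left] at h2
      linarith
  have h' : (i : ℕ) < j := h
  exact key (j - (i + 1)) i j (by omega)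

lemma inj_path (hm : ∀ i j : Fin t, (j : ℕ) = i + 1 → 0 < inner ℝ (v j - v i) u) {i j : Fin t}
    (h : v i = v j) : i = j := by
  rcases lt_trichotomy i j with h1 | h1 | h1
  · have := mono_path hm h1
    rw [h] at this
    exact absurd this (lt_irrefl _)
  · exact h1
  · have := mono_path hm h1
    rw [h] at this
    exact absurd this (lt_irrefl _)

/-- an edge is traversed upwards -/
lemma edge_up (hm : ∀ i j : Fin t, (j : ℕ) = i + 1 → 0 < inner ℝ (v j - v i) u) {p q : Plane}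
    (h : IsEdge v p q) (hpq : inner ℝ p u < inner ℝ q u) :
    ∃ i j : Fin t, (j : ℕ) = i + 1 ∧ v i = p ∧ v j = q := by
  obtain ⟨i, j, hij, h1 | h1⟩ := h
  · exact ⟨i, j, hij, h1⟩
  · exfalso
    have := mono_path hm (show i < j from by show (i : ℕ) < j; omega)
    rw [h1.1, h1.2] at this
    exact lt_asymm hpq this

lemma one_edge (hm : ∀ i j : Fin t, (j : ℕ) = i + 1 → 0 < inner ℝ (v j - v i) u) {L : ℕ}
    {F G : ℕ → Plane} (h : ∀ k < L, ∀ k' < L, inner ℝ (F k) u < inner ℝ (G k') u)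
    (hF : ∀ k < L, ∀ k' < L, F k = F k' → k = k') (hG : ∀ k < L, ∀ k' < L, G k = G k' → k = k')
    {k k' l l' : ℕ} (hk : k < L) (hk' : k' < L) (hl : l < L) (hl' : l' < L)
    (h1 : IsEdge v (F k) (G k')) (h2 : IsEdge v (F l) (G l')) : k = l ∧ k' = l' := by
  obtain ⟨i, j, e1, e2, e3⟩ := edge_up hm h1 (h k hk k' hk')
  obtain ⟨i', j', f1, f2, f3⟩ := edge_up hm h2 (h l hl l' hl')
  have key : ∀ i j i' j' : Fin t, ∀ k' < L, ∀ l < L, (j : ℕ) = i + 1 → v j = G k' → v i' = F l →
      ¬ i < i' := by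
    intro i j i' j' k' hk' l hl e1 e3 f2 hlt
    have h3 : j ≤ i' := by
      have : (i : ℕ) < i' := hlt
      show (j : ℕ) ≤ i'
      omega
    have h4 : inner ℝ (v j) u ≤ inner ℝ (v i') u := by
      rcases h3.eq_or_lt with h5 | h5
      · rw [h5]
      · exact (mono_path hm h5).le
    rw [e3, f2] at h4
    exact absurd (h l hl k' hk') (not_lt.mpr h4)
  have h3 : i = i' := by
    rcases lt_trichotomy i i' with h4 | h4 | h4
    · exact absurd h4 (key i j i' j' k' hk' l hl e1 e3 f2)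
    · exact h4
    · exact absurd h4 (key i' j' i j l' hl' k hk f1 f3 e2)
  subst h3
  have h4 : j = j' := Fin.ext (by omega)
  subst h4
  exact ⟨hF k hk l hl (e2.symm.trans f2), hG k' hk' l' hl' (e3.symm.trans f3)⟩

/-- the sum of increments over a set of edges -/
lemma telescope (hm : ∀ i j : Fin t, (j : ℕ) = i + 1 → 0 < inner ℝ (v j - v i) u) {D : ℝ}
    (hD0 : 0 ≤ D) (hD : ∀ i j : Fin t, inner ℝ (v i) u - inner ℝ (v j) u ≤ D) (I : Finset ℕ)
    (g : ℕ → ℝ) (hg : ∀ i ∈ I, ∃ a b : Fin t, (a : ℕ) = i ∧ (b : ℕ) = i + 1 ∧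
      g i ≤ inner ℝ (v b) u - inner ℝ (v a) u) : ∑ i ∈ I, g i ≤ D := by
  rcases Nat.eq_zero_or_pos t with ht | ht
  · have hI : I = ∅ := by
      rw [Finset.eq_empty_iff_forall_notMem]
      intro i hi
      obtain ⟨a, -⟩ := hg i hi
      exact absurd a.2 (by omega)
    rw [hI]
    simpa using hD0
  have hlt : ∀ i : ℕ, min i (t - 1) < t := fun i => by omega
  obtain ⟨ξ, hξ⟩ : ∃ ξ : ℕ → ℝ, ξ = fun i => inner ℝ (v ⟨min i (t - 1), hlt i⟩) u := ⟨_, rfl⟩
  have hmono : ∀ i, 0 ≤ ξ (i + 1) - ξ i := by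
    intro i
    rw [hξ]
    show 0 ≤ inner ℝ (v ⟨min (i + 1) (t - 1), hlt (i + 1)⟩) u -
      inner ℝ (v ⟨min i (t - 1), hlt i⟩) u
    by_cases h : i < t - 1
    · have := mono_path hm (i := ⟨min i (t - 1), hlt i⟩) (j := ⟨min (i + 1) (t - 1), hlt (i + 1)⟩)
        (by show min i (t - 1) < min (i + 1) (t - 1); omega)
      linarith
    · have e : (⟨min (i + 1) (t - 1), hlt (i + 1)⟩ : Fin t) = ⟨min i (t - 1), hlt i⟩ :=
        Fin.ext (by show min (i + 1) (t - 1) = min i (t - 1); omega)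
      rw [e]
      simp
  have h1 : ∑ i ∈ I, g i ≤ ∑ i ∈ I, (ξ (i + 1) - ξ i) := by
    refine Finset.sum_le_sum fun i hi => ?_
    obtain ⟨a, b, ha, hb, h2⟩ := hg i hi
    have ea : (⟨min i (t - 1), hlt i⟩ : Fin t) = a := Fin.ext (by
      have := b.2
      show min i (t - 1) = (a : ℕ)
      omega)
    have eb : (⟨min (i + 1) (t - 1), hlt (i + 1)⟩ : Fin t) = b := Fin.ext (by
      have := b.2
      show min (i + 1) (t - 1) = (b : ℕ)
      omega)
    rw [hξ]
    show g i ≤ inner ℝ (v ⟨min (i + 1) (t - 1), hlt (i + 1)⟩) u -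
      inner ℝ (v ⟨min i (t - 1), hlt i⟩) u
    rw [ea, eb]
    exact h2
  have h2 : I ⊆ Finset.range t := by
    intro i hi
    obtain ⟨a, b, ha, hb, -⟩ := hg i hi
    rw [Finset.mem_range]
    have := a.2
    omega
  have h3 : ∑ i ∈ I, (ξ (i + 1) - ξ i) ≤ ∑ i ∈ Finset.range t, (ξ (i + 1) - ξ i) :=
    Finset.sum_le_sum_of_subset_of_nonneg h2 fun i _ _ => hmono i
  rw [Finset.sum_range_sub] at h3
  have h4 : ξ t - ξ 0 ≤ D := by
    rw [hξ]
    exact hD _ _
  linarith

end path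

section

variable {β : Type} {B : Finset β} {L : ℕ} {P Q : β → ℕ → Plane} {z : β → ℤ} {ρ w η : ℝ}
  (H : Bundles B L P Q z ρ w η) {t : ℕ} {v : Fin t → Plane} {u : Plane}

/-- the segments of the bundle `b` on the path -/
noncomputable def seg (L : ℕ) (P Q : β → ℕ → Plane) {t : ℕ} (v : Fin t → Plane) (b : β) :
    Finset (ℕ × ℕ) :=
  @Finset.filter _ (fun x => IsEdge v (P b x.1) (Q b x.2)) (Classical.decPred _)
    (Finset.range L ×ˢ Finset.range L)

lemma mem_seg {b : β} {x : ℕ × ℕ} :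
    x ∈ seg L P Q v b ↔ (x.1 < L ∧ x.2 < L) ∧ IsEdge v (P b x.1) (Q b x.2) := by
  unfold seg
  rw [@Finset.mem_filter _ _ (Classical.decPred _), Finset.mem_product, Finset.mem_range,
    Finset.mem_range]

include H

lemma seg_two (hm : ∀ i j : Fin t, (j : ℕ) = i + 1 → 0 < inner ℝ (v j - v i) u) {b : β}
    (hb : b ∈ B) : (seg L P Q v b).card ≤ 2 * L := by
  classical
  have h1 : (seg L P Q v b).card ≤ (Finset.range L ×ˢ (Finset.univ : Finset Bool)).card := by
    refine Finset.card_le_card_of_injOn (fun x => (x.1, decide (∃ i j : Fin t, (j : ℕ) = i + 1 ∧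
      v i = P b x.1 ∧ v j = Q b x.2))) ?_ ?_
    · intro x hx
      have hx' := mem_seg.mp (Finset.mem_coe.mp hx)
      simp only [Finset.coe_product, Set.mem_prod, Finset.mem_coe, Finset.mem_range,
        Finset.mem_univ, and_true]
      exact hx'.1.1
    · rintro ⟨k, k'⟩ hx ⟨l, l'⟩ hy hxy
      obtain ⟨⟨a1, a2⟩, a3⟩ := mem_seg.mp (Finset.mem_coe.mp hx)
      obtain ⟨⟨b1, b2⟩, b3⟩ := mem_seg.mp (Finset.mem_coe.mp hy)
      simp only [Prod.mk.injEq, decide_eq_decide] at hxy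
      obtain ⟨hkl, hiff⟩ := hxy
      simp only at a1 a2 a3 b1 b2 b3
      subst hkl
      have hk : k' = l' := by
        by_cases hc : ∃ i j : Fin t, (j : ℕ) = i + 1 ∧ v i = P b k ∧ v j = Q b k'
        · obtain ⟨i, j, c1, c2, c3⟩ := hc
          obtain ⟨i', j', d1, d2, d3⟩ := hiff.mp ⟨i, j, c1, c2, c3⟩
          have h2 : i = i' := inj_path hm (c2.trans d2.symm)
          subst h2
          have h3 : j = j' := Fin.ext (by omega)
          subst h3
          exact H.injQ b hb k' a2 l' b2 (c3.symm.trans d3)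
        · have hc' := fun h => hc (hiff.mpr h)
          obtain ⟨i, j, c1, c2 | c2⟩ := a3
          · exact absurd ⟨i, j, c1, c2⟩ hc
          obtain ⟨i', j', d1, d2 | d2⟩ := b3
          · exact absurd ⟨i', j', d1, d2⟩ hc'
          have h3 : j = j' := inj_path hm (c2.2.trans d2.2.symm)
          subst h3
          have h2 : i = i' := Fin.ext (by omega)
          subst h2
          exact H.injQ b hb k' a2 l' b2 (c2.1.symm.trans d2.1)
      rw [hk]
  refine h1.trans ?_
  rw [Finset.card_product, Finset.card_range]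
  simp
  omega

lemma seg_one (hm : ∀ i j : Fin t, (j : ℕ) = i + 1 → 0 < inner ℝ (v j - v i) u) {b : β}
    (hb : b ∈ B) (h : η / w * one u < |rate z ρ u b|) : (seg L P Q v b).card ≤ 1 := by
  rw [Finset.card_le_one]
  rintro ⟨k, k'⟩ hx ⟨l, l'⟩ hy
  obtain ⟨⟨a1, a2⟩, a3⟩ := mem_seg.mp hx
  obtain ⟨⟨b1, b2⟩, b3⟩ := mem_seg.mp hy
  simp only at a1 a2 a3 b1 b2 b3
  rcases lt_abs.mp h with h1 | h1
  · obtain ⟨e1, e2⟩ := one_edge hm (F := P b) (G := Q b)
      (fun k hk k' hk' => pos_of_rate H u hb hk hk' h1) (H.injP b hb) (H.injQ b hb) a1 a2 b1 b2 a3 b3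
    rw [e1, e2]
  · obtain ⟨e1, e2⟩ := one_edge hm (F := Q b) (G := P b)
      (fun k hk k' hk' => neg_of_rate H u hb hk' hk (by linarith)) (H.injQ b hb) (H.injP b hb)
      a2 a1 b2 b1 a3.symm b3.symm
    rw [e1, e2]

/-- few bundles with a large rate are met -/
lemma card_large (hm : ∀ i j : Fin t, (j : ℕ) = i + 1 → 0 < inner ℝ (v j - v i) u) (hu : u ≠ 0)
    {D δ : ℝ} (hD0 : 0 ≤ D) (hD : ∀ i j : Fin t, inner ℝ (v i) u - inner ℝ (v j) u ≤ D * one u)
    (hδ : 0 < δ) (hη : η ≤ w * δ / 2) {N : ℕ} (hN : D ≤ N * (w * δ / 2)) (C : Finset β)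
    (hC : C ⊆ B) (h : ∀ b ∈ C, δ * one u < |rate z ρ u b| ∧ (seg L P Q v b).Nonempty) :
    C.card ≤ N := by
  classical
  have hw := H.w_pos
  have hU := one_pos hu
  have hwd : 0 < w * δ / 2 := by positivity
  have h1 : ∀ b ∈ C, ∃ i j : Fin t, ∃ k < L, ∃ k' < L, (j : ℕ) = i + 1 ∧
      ((v i = P b k ∧ v j = Q b k') ∨ (v i = Q b k' ∧ v j = P b k)) := by
    intro b hb
    obtain ⟨x, hx⟩ := (h b hb).2
    obtain ⟨⟨a1, a2⟩, i, j, a3, a4⟩ := mem_seg.mp hx
    exact ⟨i, j, x.1, a1, x.2, a2, a3, a4⟩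
  rcases C.eq_empty_or_nonempty with he | ⟨b0, hb0⟩
  · rw [he]
    simp
  have hin : Nonempty (Fin t) := by
    obtain ⟨i, -⟩ := h1 b0 hb0
    exact ⟨i⟩
  choose! i j k hk k' hk' hij hv using h1
  have hinj : Set.InjOn (fun b => ((i b : Fin t) : ℕ)) C := by
    intro b hb b' hb' hbb
    have hb := Finset.mem_coe.mp hb
    have hb' := Finset.mem_coe.mp hb'
    have e1 : i b = i b' := Fin.ext hbb
    have e2 : j b = j b' := Fin.ext (by rw [hij b hb, hij b' hb', e1])
    have g1 := hv b hb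
    have g2 := hv b' hb'
    rw [e1, e2] at g1
    rcases g1 with ⟨g1, g3⟩ | ⟨g1, g3⟩ <;> rcases g2 with ⟨g2, g4⟩ | ⟨g2, g4⟩
    · exact H.edge b (hC hb) b' (hC hb') _ (hk b hb) _ (hk' b hb) _ (hk b' hb') _ (hk' b' hb')
        (g1.symm.trans g2) (g3.symm.trans g4)
    · exact (ne_PQ H (hC hb) (hC hb') (hk b hb) (hk' b hb) (hk b' hb') (hk' b' hb')
        (g1.symm.trans g2) (g3.symm.trans g4)).elim
    · exact (ne_PQ H (hC hb) (hC hb') (hk b hb) (hk' b hb) (hk b' hb') (hk' b' hb')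
        (g3.symm.trans g4) (g1.symm.trans g2)).elim
    · exact H.edge b (hC hb) b' (hC hb') _ (hk b hb) _ (hk' b hb) _ (hk b' hb') _ (hk' b' hb')
        (g3.symm.trans g4) (g1.symm.trans g2)
  have h2 := telescope hm (D := D * one u) (by positivity) hD
    (C.image fun b => ((i b : Fin t) : ℕ)) (fun _ => w * δ / 2 * one u) (by
      intro n hn
      obtain ⟨b, hb, rfl⟩ := Finset.mem_image.mp hn
      refine ⟨i b, j b, rfl, hij b hb, ?_⟩
      have h3 := far_of_rate H u (hC hb) (hk b hb) (hk' b hb)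
      have h4 := (h b hb).1
      have h5 : w * (δ * one u) ≤ w * |rate z ρ u b| := mul_le_mul_of_nonneg_left h4.le hw.le
      have h6 : η * one u ≤ w * δ / 2 * one u := mul_le_mul_of_nonneg_right hη hU.le
      have h7 : |inner ℝ (Q b (k' b)) u - inner ℝ (P b (k b)) u| =
          inner ℝ (v (j b)) u - inner ℝ (v (i b)) u := by
        have hlt : inner ℝ (v (i b)) u < inner ℝ (v (j b)) u :=
          mono_path hm (by show ((i b : Fin t) : ℕ) < (j b : Fin t); rw [hij b hb]; omega)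
        rcases hv b hb with ⟨g1, g2⟩ | ⟨g1, g2⟩
        · rw [← g1, ← g2, abs_of_pos (by linarith)]
        · rw [← g1, ← g2, abs_of_neg (by linarith)]
          ring
      linarith)
  rw [Finset.sum_const, Finset.card_image_of_injOn hinj, nsmul_eq_mul] at h2
  have h3 : (C.card : ℝ) * (w * δ / 2) * one u ≤ N * (w * δ / 2) * one u := by
    have := mul_le_mul_of_nonneg_right hN hU.le
    linarith
  have h4 := le_of_mul_le_mul_right h3 hU
  exact_mod_cast le_of_mul_le_mul_right h4 hwd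

/-- **The number of the segments of all bundles on one monotone path.** -/
theorem total (hm : ∀ i j : Fin t, (j : ℕ) = i + 1 → 0 < inner ℝ (v j - v i) u) (hu : u ≠ 0)
    {D δ : ℝ} (hD0 : 0 ≤ D) (hD : ∀ i j : Fin t, inner ℝ (v i) u - inner ℝ (v j) u ≤ D * one u)
    (hδ : 0 < δ) (hδ4 : δ ≤ 1 / 4) (hη : η ≤ w * δ / 2) (hη1 : 8 * η < ρ * w) (hη2 : η / w ≤ 1 / 4)
    {N : ℕ} (hN : D ≤ N * (w * δ / 2)) {M : ℕ} (hM : 8 * δ ≤ ρ * M) :
    ∑ b ∈ B, (seg L P Q v b).card ≤ 2 * L + (M + 1) + N := by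
  classical
  have hX : (B.filter fun b => |rate z ρ u b| ≤ η / w * one u).card ≤ 1 := by
    rw [Finset.card_le_one]
    intro b hb b' hb'
    obtain ⟨h1, h2⟩ := Finset.mem_filter.mp hb
    obtain ⟨h3, h4⟩ := Finset.mem_filter.mp hb'
    exact cross_unique H u hu hη1 hη2 h1 h3 h2 h4
  have hS : (B.filter fun b => |rate z ρ u b| ≤ δ * one u).card ≤ M + 1 :=
    card_small H u hu hδ4 hM _ (Finset.filter_subset _ _) fun b hb => (Finset.mem_filter.mp hb).2
  have hL : (B.filter fun b => δ * one u < |rate z ρ u b| ∧ (seg L P Q v b).Nonempty).card ≤ N :=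
    card_large H hm hu hD0 hD hδ hη hN _ (Finset.filter_subset _ _)
      fun b hb => (Finset.mem_filter.mp hb).2
  have h1 : ∑ b ∈ B, (seg L P Q v b).card ≤ ∑ b ∈ B,
      ((if |rate z ρ u b| ≤ η / w * one u then 2 * L else 0) +
        (if |rate z ρ u b| ≤ δ * one u then 1 else 0) +
        (if δ * one u < |rate z ρ u b| ∧ (seg L P Q v b).Nonempty then 1 else 0)) := by
    refine Finset.sum_le_sum fun b hb => ?_
    by_cases hx : |rate z ρ u b| ≤ η / w * one u
    · rw [if_pos hx]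
      have := seg_two H hm hb
      omega
    · rw [if_neg hx]
      have h2 := seg_one H hm hb (not_le.mp hx)
      rcases (seg L P Q v b).eq_empty_or_nonempty with he | hne
      · rw [he]
        simp
      · by_cases hy : |rate z ρ u b| ≤ δ * one u
        · rw [if_pos hy]
          omega
        · rw [if_neg hy, if_pos ⟨not_le.mp hy, hne⟩]
          omega
  refine h1.trans ?_
  rw [Finset.sum_add_distrib, Finset.sum_add_distrib, ← Finset.sum_filter, ← Finset.sum_filter,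
    ← Finset.sum_filter, Finset.sum_const, Finset.sum_const, Finset.sum_const, smul_eq_mul,
    smul_eq_mul, smul_eq_mul, mul_one, mul_one]
  have h3 : (B.filter fun b => |rate z ρ u b| ≤ η / w * one u).card * (2 * L) ≤ 1 * (2 * L) :=
    Nat.mul_le_mul_right _ hX
  omega

end

end Pool.Agent.U583.MC
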