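import Mathlib
import Pool.Agent.U583.MC.Path

/-!
# The deformed grid

The points `T (i, j) / (T + i)` of a slightly deformed grid, `0 ≤ j < m`, moved by `ε (k, k²)` where `k = i m + j`.
-/

set_option autoImplicit false

namespace Pool.Agent.U583.MC

open Pool.Agent.R143.MonoPath

/-- first coordinate of the deformed grid -/
noncomputable def gx (T i : ℕ) : ℝ := (T : ℝ) * i / (T + i)

/-- second coordinate of the deformed grid -/
noncomputable def gy (T i j : ℕ) : ℝ := (T : ℝ) * j / (T + i)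

/-- the points -/
noncomputable def pt (m T : ℕ) (ε : ℝ) (k : ℕ) : Plane :=
  !₂[gx T (k / m) + ε * k, gy T (k / m) (k % m) + ε * (k : ℝ) ^ 2]

@[simp] lemma pt_zero (m T : ℕ) (ε : ℝ) (k : ℕ) : (pt m T ε k) 0 = gx T (k / m) + ε * k := by
  simp [pt]

@[simp] lemma pt_one (m T : ℕ) (ε : ℝ) (k : ℕ) :
    (pt m T ε k) 1 = gy T (k / m) (k % m) + ε * (k : ℝ) ^ 2 := by
  simp [pt]

lemma gx_sub {T i i' : ℕ} (hT : 0 < T) :
    gx T i' - gx T i = (T : ℝ) ^ 2 * ((i' : ℝ) - i) / ((T + i) * (T + i')) := by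
  have hT' : (0 : ℝ) < T := by exact_mod_cast hT
  have h1 : (0 : ℝ) < T + i := by positivity
  have h2 : (0 : ℝ) < T + i' := by positivity
  unfold gx
  rw [div_sub_div _ _ h2.ne' h1.ne', div_eq_div_iff (by positivity) (by positivity)]
  ring

/-- on the line `q j = r i + e` -/
lemma gy_line {T i j q : ℕ} {r e : ℤ} (hT : 0 < T) (hq : 0 < q) (h : (q : ℤ) * j = r * i + e) :
    gy T i j = 1 / ((q : ℝ) * T) * ((r * T - e : ℤ) : ℝ) * gx T i + e / q := by
  have hT' : (0 : ℝ) < T := by exact_mod_cast hT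
  have hq' : (0 : ℝ) < q := by exact_mod_cast hq
  have h1 : (0 : ℝ) < T + i := by positivity
  have h2 : (q : ℝ) * j = r * i + e := by exact_mod_cast h
  unfold gy gx
  push_cast
  field_simp
  linear_combination (T : ℝ) * h2

lemma gx_bounds {T i : ℕ} (hT : 0 < T) : 0 ≤ gx T i ∧ gx T i ≤ i := by
  have hT' : (0 : ℝ) < T := by exact_mod_cast hT
  have h1 : (0 : ℝ) < T + i := by positivity
  unfold gx
  refine ⟨by positivity, ?_⟩
  rw [div_le_iff₀ h1]
  have : (0 : ℝ) ≤ i := Nat.cast_nonneg _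
  nlinarith

lemma gy_bounds {T i j : ℕ} (hT : 0 < T) : 0 ≤ gy T i j ∧ gy T i j ≤ j := by
  have hT' : (0 : ℝ) < T := by exact_mod_cast hT
  have h1 : (0 : ℝ) < T + i := by positivity
  unfold gy
  refine ⟨by positivity, ?_⟩
  rw [div_le_iff₀ h1]
  have : (0 : ℝ) ≤ i := Nat.cast_nonneg _
  have : (0 : ℝ) ≤ j := Nat.cast_nonneg _
  nlinarith

/-- the deformed grid is separated -/
lemma sep_gx {T m i i' : ℕ} (hm : 16 ≤ m) (hT : 8 * m ≤ T) (hi : i ≤ m + 2) (hi' : i' ≤ m + 2)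
    (h : i ≠ i') : 3 / 4 ≤ |gx T i' - gx T i| := by
  have hT0 : 0 < T := by omega
  have hT' : (0 : ℝ) < T := by exact_mod_cast hT0
  rw [gx_sub hT0, abs_div, abs_mul]
  have h1 : (0 : ℝ) < T + i := by positivity
  have h2 : (0 : ℝ) < T + i' := by positivity
  rw [abs_of_pos (by positivity : (0 : ℝ) < (T + i) * (T + i')), abs_of_pos (by positivity :
    (0 : ℝ) < (T : ℝ) ^ 2), le_div_iff₀ (by positivity)]
  have h3 : (1 : ℝ) ≤ |(i' : ℝ) - i| := by
    have : (1 : ℤ) ≤ |(i' : ℤ) - i| := Int.one_le_abs (by omega)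
    exact_mod_cast this
  have h4 : (i : ℝ) ≤ 9 / 64 * T := by
    have : 64 * i ≤ 9 * T := by omega
    have : (64 : ℝ) * i ≤ 9 * T := by exact_mod_cast this
    linarith
  have h5 : (i' : ℝ) ≤ 9 / 64 * T := by
    have : 64 * i' ≤ 9 * T := by omega
    have : (64 : ℝ) * i' ≤ 9 * T := by exact_mod_cast this
    linarith
  have h6 : ((T : ℝ) + i) * (T + i') ≤ (73 / 64 * T) * (73 / 64 * T) := by
    apply mul_le_mul <;> first | linarith | positivity
  have h7 : (T : ℝ) ^ 2 * 1 ≤ (T : ℝ) ^ 2 * |(i' : ℝ) - i| :=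
    mul_le_mul_of_nonneg_left h3 (by positivity)
  nlinarith

lemma sep_gy {T m i j j' : ℕ} (hm : 16 ≤ m) (hT : 8 * m ≤ T) (hi : i ≤ m + 2)
    (h : j ≠ j') : 3 / 4 ≤ |gy T i j' - gy T i j| := by
  have hT0 : 0 < T := by omega
  have hT' : (0 : ℝ) < T := by exact_mod_cast hT0
  have h1 : (0 : ℝ) < T + i := by positivity
  have e : gy T i j' - gy T i j = (T : ℝ) * ((j' : ℝ) - j) / (T + i) := by
    unfold gy
    rw [← sub_div]
    ring
  rw [e, abs_div, abs_mul, abs_of_pos h1, abs_of_pos hT', le_div_iff₀ h1]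
  have h3 : (1 : ℝ) ≤ |(j' : ℝ) - j| := by
    have : (1 : ℤ) ≤ |(j' : ℤ) - j| := Int.one_le_abs (by omega)
    exact_mod_cast this
  have h4 : (i : ℝ) ≤ 9 / 64 * T := by
    have : 64 * i ≤ 9 * T := by omega
    have : (64 : ℝ) * i ≤ 9 * T := by exact_mod_cast this
    linarith
  have h7 : (T : ℝ) * 1 ≤ (T : ℝ) * |(j' : ℝ) - j| := mul_le_mul_of_nonneg_left h3 hT'.le
  linarith

section

variable {n m T : ℕ} {ε η : ℝ}

/-- the displacements are small -/
lemma near_zero (hε : 0 ≤ ε) (hη : ε * (n : ℝ) ^ 2 ≤ η) {k k' : ℕ} (hk : k < n) (hk' : k' < n) :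
    |(pt m T ε k' - pt m T ε k) 0 - (gx T (k' / m) - gx T (k / m))| ≤ η := by
  have e : (pt m T ε k' - pt m T ε k) 0 - (gx T (k' / m) - gx T (k / m)) =
      ε * ((k' : ℝ) - k) := by
    simp only [PiLp.sub_apply, pt_zero]
    ring
  rw [e, abs_mul, abs_of_nonneg hε]
  refine le_trans (mul_le_mul_of_nonneg_left ?_ hε) hη
  have h1 : (k : ℝ) ≤ n := by exact_mod_cast hk.le
  have h2 : (k' : ℝ) ≤ n := by exact_mod_cast hk'.le
  have h3 : (1 : ℝ) ≤ n := by exact_mod_cast (by omega : 1 ≤ n)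
  have h4 : (0 : ℝ) ≤ k := Nat.cast_nonneg _
  have h5 : (0 : ℝ) ≤ k' := Nat.cast_nonneg _
  rw [abs_le]
  constructor <;> nlinarith

lemma near_one (hε : 0 ≤ ε) (hη : ε * (n : ℝ) ^ 2 ≤ η) {k k' : ℕ} (hk : k < n) (hk' : k' < n) :
    |(pt m T ε k' - pt m T ε k) 1 - (gy T (k' / m) (k' % m) - gy T (k / m) (k % m))| ≤ η := by
  have e : (pt m T ε k' - pt m T ε k) 1 - (gy T (k' / m) (k' % m) - gy T (k / m) (k % m)) =
      ε * ((k' : ℝ) ^ 2 - (k : ℝ) ^ 2) := by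
    simp only [PiLp.sub_apply, pt_one]
    ring
  rw [e, abs_mul, abs_of_nonneg hε]
  refine le_trans (mul_le_mul_of_nonneg_left ?_ hε) hη
  have h1 : (k : ℝ) ≤ n := by exact_mod_cast hk.le
  have h2 : (k' : ℝ) ≤ n := by exact_mod_cast hk'.le
  have h4 : (0 : ℝ) ≤ k := Nat.cast_nonneg _
  have h5 : (0 : ℝ) ≤ k' := Nat.cast_nonneg _
  rw [abs_le]
  constructor <;> nlinarith

/-- distinct points are at distance at least `1 / 2` in one of the coordinates -/
lemma sep_pt (hm : 16 ≤ m) (hT : 8 * m ≤ T) (hn : n ≤ m ^ 2 + 2 * m) (hε : 0 ≤ ε)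
    (hη : ε * (n : ℝ) ^ 2 ≤ η) (hη4 : η ≤ 1 / 4) {k k' : ℕ} (hk : k < n) (hk' : k' < n)
    (h : k ≠ k') : 1 / 2 ≤ |(pt m T ε k' - pt m T ε k) 0| ∨ 1 / 2 ≤ |(pt m T ε k' - pt m T ε k) 1| := by
  have hi : k / m ≤ m + 2 := by
    have : k / m < m + 3 := Nat.div_lt_of_lt_mul (by nlinarith)
    omega
  have hi' : k' / m ≤ m + 2 := by
    have : k' / m < m + 3 := Nat.div_lt_of_lt_mul (by nlinarith)
    omega
  by_cases hc : k / m = k' / m
  · right
    have hj : k % m ≠ k' % m := by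
      intro hj
      apply h
      rw [← Nat.div_add_mod k m, ← Nat.div_add_mod k' m, hc, hj]
    have h1 := sep_gy hm hT hi' hj
    have h2 := near_one (m := m) (T := T) hε hη hk hk'
    rw [hc] at h2
    have h3 := abs_sub_abs_le_abs_sub (gy T (k' / m) (k' % m) - gy T (k' / m) (k % m))
      ((pt m T ε k' - pt m T ε k) 1)
    rw [abs_sub_comm (gy T (k' / m) (k' % m) - gy T (k' / m) (k % m))] at h3
    linarith
  · left
    have h1 := sep_gx hm hT hi hi' hc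
    have h2 := near_zero (m := m) (T := T) hε hη hk hk'
    have h3 := abs_sub_abs_le_abs_sub (gx T (k' / m) - gx T (k / m))
      ((pt m T ε k' - pt m T ε k) 0)
    rw [abs_sub_comm (gx T (k' / m) - gx T (k / m))] at h3
    linarith

lemma pt_inj (hm : 16 ≤ m) (hT : 8 * m ≤ T) (hn : n ≤ m ^ 2 + 2 * m) (hε : 0 ≤ ε)
    (hη : ε * (n : ℝ) ^ 2 ≤ η) (hη4 : η ≤ 1 / 4) {k k' : ℕ} (hk : k < n) (hk' : k' < n)
    (h : pt m T ε k = pt m T ε k') : k = k' := by
  by_contra hc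
  rcases sep_pt hm hT hn hε hη hη4 hk hk' hc with h1 | h1 <;>
  · rw [h, sub_self] at h1
    simp at h1
    linarith

/-- the coordinates of the differences are at most `2 m` -/
lemma diam_zero (hm : 16 ≤ m) (hT : 8 * m ≤ T) (hn : n ≤ m ^ 2 + 2 * m) (hε : 0 ≤ ε)
    (hη : ε * (n : ℝ) ^ 2 ≤ η) (hη4 : η ≤ 1 / 4) {k k' : ℕ} (hk : k < n) (hk' : k' < n) :
    |(pt m T ε k' - pt m T ε k) 0| ≤ 2 * m := by
  have hT0 : 0 < T := by omega
  have hi : k / m ≤ m + 2 := by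
    have : k / m < m + 3 := Nat.div_lt_of_lt_mul (by nlinarith)
    omega
  have hi' : k' / m ≤ m + 2 := by
    have : k' / m < m + 3 := Nat.div_lt_of_lt_mul (by nlinarith)
    omega
  have h1 : (gx T (k / m)) ≤ m + 2 := (gx_bounds hT0).2.trans (by exact_mod_cast hi)
  have h2 : (gx T (k' / m)) ≤ m + 2 := (gx_bounds hT0).2.trans (by exact_mod_cast hi')
  have h3 := (gx_bounds (T := T) (i := k / m) hT0).1
  have h4 := (gx_bounds (T := T) (i := k' / m) hT0).1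
  have h5 := abs_le.mp (near_zero (m := m) (T := T) hε hη hk hk')
  have h6 : (16 : ℝ) ≤ m := by exact_mod_cast hm
  rw [abs_le]
  constructor <;> linarith [h5.1, h5.2]

lemma diam_one (hm : 16 ≤ m) (hT : 8 * m ≤ T) (hε : 0 ≤ ε)
    (hη : ε * (n : ℝ) ^ 2 ≤ η) (hη4 : η ≤ 1 / 4) {k k' : ℕ} (hk : k < n) (hk' : k' < n) :
    |(pt m T ε k' - pt m T ε k) 1| ≤ 2 * m := by
  have hT0 : 0 < T := by omega
  have hj : k % m ≤ m := (Nat.mod_lt k (by omega)).le
  have hj' : k' % m ≤ m := (Nat.mod_lt k' (by omega)).le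
  have h1 : (gy T (k / m) (k % m)) ≤ m := (gy_bounds hT0).2.trans (by exact_mod_cast hj)
  have h2 : (gy T (k' / m) (k' % m)) ≤ m := (gy_bounds hT0).2.trans (by exact_mod_cast hj')
  have h3 := (gy_bounds (T := T) (i := k / m) (j := k % m) hT0).1
  have h4 := (gy_bounds (T := T) (i := k' / m) (j := k' % m) hT0).1
  have h5 := abs_le.mp (near_one (m := m) (T := T) hε hη hk hk')
  have h6 : (16 : ℝ) ≤ m := by exact_mod_cast hm
  rw [abs_le]
  constructor <;> linarith [h5.1, h5.2]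

end

/-! ### General position -/

lemma not_collinear {a b c : Plane}
    (h : (b 0 - a 0) * (c 1 - a 1) - (b 1 - a 1) * (c 0 - a 0) ≠ 0) :
    ¬ Collinear ℝ ({a, b, c} : Set Plane) := by
  intro hc
  apply h
  rw [collinear_iff_of_mem (p₀ := a) (by simp)] at hc
  obtain ⟨v, hv⟩ := hc
  obtain ⟨r, hr⟩ := hv b (by simp)
  obtain ⟨s, hs⟩ := hv c (by simp)
  rw [hr, hs]
  simp only [vadd_eq_add, PiLp.add_apply, PiLp.smul_apply, smul_eq_mul]
  ring

lemma quad_finite (A0 A1 A2 : ℝ) (h : A2 ≠ 0) : {x : ℝ | A0 + A1 * x + A2 * x ^ 2 = 0}.Finite := by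
  have hp : (Polynomial.C A0 + Polynomial.C A1 * Polynomial.X +
      Polynomial.C A2 * Polynomial.X ^ 2 : Polynomial ℝ) ≠ 0 := by
    intro h0
    have := congrArg (fun p => Polynomial.coeff p 2) h0
    simp [Polynomial.coeff_C, Polynomial.coeff_X] at this
    exact h this
  refine (Polynomial.finite_setOf_isRoot hp).subset ?_
  intro x hx
  have hx' : A0 + A1 * x + A2 * x ^ 2 = 0 := hx
  simp [Polynomial.IsRoot, hx']

/-- there are arbitrarily small `ε` for which the points are in general position -/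
lemma exists_eps (n m T : ℕ) {ε₀ : ℝ} (h0 : 0 < ε₀) : ∃ ε, 0 < ε ∧ ε < ε₀ ∧
    ∀ a < n, ∀ b < n, ∀ c < n, a ≠ b → b ≠ c → a ≠ c →
      ¬ Collinear ℝ ({pt m T ε a, pt m T ε b, pt m T ε c} : Set Plane) := by
  classical
  let bad : Set ℝ := ⋃ x ∈ ((Finset.range n ×ˢ Finset.range n ×ˢ Finset.range n).filter
    (fun x => x.1 ≠ x.2.1 ∧ x.2.1 ≠ x.2.2 ∧ x.1 ≠ x.2.2) : Finset (ℕ × ℕ × ℕ)),
    {ε : ℝ | ((pt m T ε x.2.1) 0 - (pt m T ε x.1) 0) * ((pt m T ε x.2.2) 1 - (pt m T ε x.1) 1) -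
      ((pt m T ε x.2.1) 1 - (pt m T ε x.1) 1) * ((pt m T ε x.2.2) 0 - (pt m T ε x.1) 0) = 0}
  have hbad : bad.Finite := by
    refine Set.Finite.biUnion (Finset.finite_toSet _) ?_
    rintro ⟨a, b, c⟩ hx
    obtain ⟨-, h1, h2, h3⟩ := Finset.mem_filter.mp (Finset.mem_coe.mp hx)
    simp only at h1 h2 h3
    have h1' : (b : ℝ) - a ≠ 0 := sub_ne_zero.mpr (by exact_mod_cast h1.symm)
    have h2' : (c : ℝ) - b ≠ 0 := sub_ne_zero.mpr (by exact_mod_cast h2.symm)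
    have h3' : (c : ℝ) - a ≠ 0 := sub_ne_zero.mpr (by exact_mod_cast h3.symm)
    refine (quad_finite ((gx T (b / m) - gx T (a / m)) * (gy T (c / m) (c % m) -
        gy T (a / m) (a % m)) - (gy T (b / m) (b % m) - gy T (a / m) (a % m)) *
        (gx T (c / m) - gx T (a / m)))
      ((gx T (b / m) - gx T (a / m)) * ((c : ℝ) ^ 2 - (a : ℝ) ^ 2) + ((b : ℝ) - a) *
        (gy T (c / m) (c % m) - gy T (a / m) (a % m)) - (gy T (b / m) (b % m) -
        gy T (a / m) (a % m)) * ((c : ℝ) - a) - ((b : ℝ) ^ 2 - (a : ℝ) ^ 2) *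
        (gx T (c / m) - gx T (a / m)))
      (((b : ℝ) - a) * ((c : ℝ) - a) * ((c : ℝ) - b))
      (mul_ne_zero (mul_ne_zero h1' h3') h2')).subset ?_
    intro ε hε
    simp only [Set.mem_setOf_eq, pt_zero, pt_one] at hε ⊢
    rw [← hε]
    ring
  obtain ⟨ε, hε, hb⟩ := (Set.Ioo_infinite h0).exists_notMem_finite hbad
  refine ⟨ε, hε.1, hε.2, ?_⟩
  intro a ha b hb' c hc hab hbc hac
  apply not_collinear
  intro h
  apply hb
  refine Set.mem_biUnion (x := (a, b, c)) ?_ h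
  rw [Finset.mem_coe, Finset.mem_filter]
  exact ⟨Finset.mem_product.mpr ⟨Finset.mem_range.mpr ha, Finset.mem_product.mpr
    ⟨Finset.mem_range.mpr hb', Finset.mem_range.mpr hc⟩⟩, hab, hbc, hac⟩

end Pool.Agent.U583.MC
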