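import Mathlib
import Pool.Agent.U583.MC.Grid

/-!
# The bundles of the deformed grid

A bundle is given by `(s, i₀, j₀)`: its points are the points `(i₀ + k q, j₀ + k (2 s + 1))` of the grid.
-/

set_option autoImplicit false

namespace Pool.Agent.U583.MC

open Pool.Agent.R143.MonoPath

/-- the index of the point number `k` of the bundle `b` -/
def idx (m q : ℕ) (b : ℕ × ℕ × ℕ) (k : ℕ) : ℕ :=
  (b.2.1 + k * q) * m + (b.2.2 + k * (2 * b.1 + 1))

/-- the bundles -/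
def fam (m q : ℕ) : Finset (ℕ × ℕ × ℕ) :=
  Finset.range (q / 2) ×ˢ (Finset.range q ×ˢ Finset.range (m / 2))

/-- the number which gives the slope -/
def zz (m q : ℕ) (b : ℕ × ℕ × ℕ) : ℤ :=
  (2 * b.1 + 1 : ℤ) * (4 * q * m) - ((q : ℤ) * b.2.2 - (2 * b.1 + 1) * b.2.1)

lemma mem_fam {m q : ℕ} {b : ℕ × ℕ × ℕ} :
    b ∈ fam m q ↔ b.1 < q / 2 ∧ b.2.1 < q ∧ b.2.2 < m / 2 := by
  unfold fam
  rw [Finset.mem_product, Finset.mem_product, Finset.mem_range, Finset.mem_range, Finset.mem_range]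

section

variable {m q : ℕ} {b : ℕ × ℕ × ℕ}

lemma coord {L : ℕ} (hb : b ∈ fam m q) (hL : 8 * q * L ≤ m) {k : ℕ} (hk : k < 4 * L) :
    b.2.1 + k * q < m ∧ b.2.2 + k * (2 * b.1 + 1) < m := by
  obtain ⟨h1, h2, h3⟩ := mem_fam.mp hb
  have h4 : (k + 1) * q ≤ 4 * L * q := Nat.mul_le_mul_right _ (by omega)
  have h5 : (k + 1) * q = k * q + q := by ring
  have h6 : 2 * (4 * L * q) ≤ m := by
    have : 2 * (4 * L * q) = 8 * q * L := by ring
    omega
  have h7 : k * (2 * b.1 + 1) ≤ k * q := Nat.mul_le_mul_left _ (by omega)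
  constructor
  · omega
  · omega

lemma idx_div {L : ℕ} (hb : b ∈ fam m q) (hL : 8 * q * L ≤ m) {k : ℕ} (hk : k < 4 * L) :
    idx m q b k / m = b.2.1 + k * q ∧ idx m q b k % m = b.2.2 + k * (2 * b.1 + 1) := by
  obtain ⟨h1, h2⟩ := coord hb hL hk
  have hm : 0 < m := by omega
  unfold idx
  constructor
  · rw [mul_comm, Nat.mul_add_div hm, Nat.div_eq_of_lt h2, add_zero]
  · rw [mul_comm, Nat.mul_add_mod, Nat.mod_eq_of_lt h2]

lemma idx_lt {L : ℕ} (hb : b ∈ fam m q) (hL : 8 * q * L ≤ m) {k : ℕ} (hk : k < 4 * L) :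
    idx m q b k < m ^ 2 := by
  obtain ⟨h1, h2⟩ := coord hb hL hk
  unfold idx
  have h3 : (b.2.1 + k * q + 1) * m ≤ m * m := Nat.mul_le_mul_right _ (by omega)
  nlinarith

/-- the numbers of distinct bundles are distinct -/
lemma zz_inj {a : ℕ} (hq : q = 2 ^ a) (ha : 0 < a) (hqm : 4 * q ≤ m) (b : ℕ × ℕ × ℕ) (hb : b ∈ fam m q)
    (b' : ℕ × ℕ × ℕ) (hb' : b' ∈ fam m q) (h : zz m q b = zz m q b') : b = b' := by
  obtain ⟨s, i, j⟩ := b
  obtain ⟨s', i', j'⟩ := b'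
  obtain ⟨h1, h2, h3⟩ := mem_fam.mp hb
  obtain ⟨g1, g2, g3⟩ := mem_fam.mp hb'
  simp only at h1 h2 h3 g1 g2 g3
  unfold zz at h
  simp only at h
  have hq0 : 0 < q := by omega
  have hqq : (0 : ℤ) < q := by exact_mod_cast hq0
  have hm0 : (0 : ℤ) < m := by exact_mod_cast (by omega : 0 < m)
  -- bounds
  have bd : ∀ s i j : ℕ, s < q / 2 → i < q → j < m / 2 →
      |(q : ℤ) * j - (2 * s + 1) * i| < q * m := by
    intro s i j e1 e2 e3
    have f1 : (0 : ℤ) ≤ (q : ℤ) * j := by positivity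
    have f2 : (q : ℤ) * j < q * m := mul_lt_mul_of_pos_left (by exact_mod_cast (by omega : j < m)) hqq
    have f3 : (0 : ℤ) ≤ (2 * s + 1 : ℤ) * i := by positivity
    have f4 : (2 * s + 1 : ℤ) * i < q * m := by
      have f5 : (2 * s + 1) * i ≤ q * i := Nat.mul_le_mul_right _ (by omega)
      have f6 : q * i < q * m := Nat.mul_lt_mul_of_pos_left (by omega) hq0
      exact_mod_cast f5.trans_lt f6
    rw [abs_lt]
    constructor <;> linarith
  have e1 := abs_lt.mp (bd s i j h1 h2 h3)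
  have e2 := abs_lt.mp (bd s' i' j' g1 g2 g3)
  have hQM : (0 : ℤ) < q * m := by positivity
  have hs : s = s' := by
    by_contra hc
    rcases Nat.lt_or_gt_of_ne hc with hlt | hlt
    · have : (s : ℤ) + 1 ≤ s' := by exact_mod_cast hlt
      nlinarith
    · have : (s' : ℤ) + 1 ≤ s := by exact_mod_cast hlt
      nlinarith
  subst hs
  have h4 : (q : ℤ) * ((j : ℤ) - j') = (2 * s + 1) * ((i : ℤ) - i') := by linarith
  have hcop : IsCoprime (q : ℤ) (2 * s + 1 : ℤ) := by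
    rw [hq]
    push_cast
    apply IsCoprime.pow_left
    exact ⟨-s, 1, by ring⟩
  have h5 : (q : ℤ) ∣ (i : ℤ) - i' := by
    apply hcop.dvd_of_dvd_mul_left
    exact ⟨(j : ℤ) - j', by linarith⟩
  have h6 : i = i' := by
    by_contra hc
    have h7 := Int.le_of_dvd (abs_pos.mpr (sub_ne_zero.mpr (by exact_mod_cast hc : (i : ℤ) ≠ i')))
      ((dvd_abs _ _).mpr h5)
    have h8 : |(i : ℤ) - i'| < q := by
      rw [abs_lt]
      constructor <;> omega
    omega
  subst h6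
  rw [sub_self, mul_zero] at h4
  have h9 : (j : ℤ) - j' = 0 := by
    rcases mul_eq_zero.mp h4 with h | h
    · exact absurd h hqq.ne'
    · exact h
  have : j = j' := by omega
  rw [this]

/-- the bundles have the properties `Bundles` -/
theorem bundles {n L a : ℕ} {ε η : ℝ} (hq : q = 2 ^ a) (ha : 0 < a) (hm : 16 ≤ m) (hqm : 4 * q ≤ m)
    (hL0 : 0 < L) (hL : 8 * q * L ≤ m) (hn1 : m ^ 2 ≤ n) (hn2 : n ≤ m ^ 2 + 2 * m) (hε : 0 ≤ ε)
    (hη : ε * (n : ℝ) ^ 2 ≤ η) (hη4 : η ≤ 1 / 4) :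
    Bundles (fam m q) L (fun b k => pt m (4 * q * m) ε (idx m q b k))
      (fun b k => pt m (4 * q * m) ε (idx m q b (3 * L + k))) (zz m q)
      (1 / ((q : ℝ) * (4 * q * m : ℕ))) ((L : ℝ) * q) η := by
  have hq0 : 0 < q := by rw [hq]; positivity
  have hq2 : 2 ≤ q := by
    rw [hq]
    calc 2 = 2 ^ 1 := rfl
      _ ≤ 2 ^ a := Nat.pow_le_pow_right (by norm_num) ha
  have hT0 : 0 < 4 * q * m := by positivity
  have hT : 8 * m ≤ 4 * q * m := by nlinarith
  have hη0 : 0 ≤ η := le_trans (by positivity) hη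
  have hTr : (0 : ℝ) < ((4 * q * m : ℕ) : ℝ) := by exact_mod_cast hT0
  have hqr : (0 : ℝ) < q := by exact_mod_cast hq0
  have hLr : (1 : ℝ) ≤ L := by exact_mod_cast hL0
  have hq1r : (2 : ℝ) ≤ q := by exact_mod_cast hq2
  have hinj : ∀ b ∈ fam m q, ∀ b' ∈ fam m q, ∀ k < 4 * L, ∀ k' < 4 * L,
      pt m (4 * q * m) ε (idx m q b k) = pt m (4 * q * m) ε (idx m q b' k') →
      b.2.1 + k * q = b'.2.1 + k' * q ∧ b.2.2 + k * (2 * b.1 + 1) = b'.2.2 + k' * (2 * b'.1 + 1) := by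
    intro b hb b' hb' k hk k' hk' h
    have h1 := pt_inj hm hT hn2 hε hη hη4 ((idx_lt hb hL hk).trans_le hn1)
      ((idx_lt hb' hL hk').trans_le hn1) h
    have h2 := idx_div hb hL hk
    have h3 := idx_div hb' hL hk'
    rw [h1] at h2
    exact ⟨h2.1.symm.trans h3.1, h2.2.symm.trans h3.2⟩
  have hik : ∀ b ∈ fam m q, ∀ b' ∈ fam m q, ∀ k k' : ℕ, b.2.1 + k * q = b'.2.1 + k' * q →
      b.2.1 = b'.2.1 ∧ k = k' := by
    intro b hb b' hb' k k' h
    obtain ⟨-, h2, -⟩ := mem_fam.mp hb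
    obtain ⟨-, g2, -⟩ := mem_fam.mp hb'
    have h3 : b.2.1 = b'.2.1 := by
      have := congrArg (fun x => x % q) h
      simpa [Nat.add_mul_mod_self_right, Nat.mod_eq_of_lt h2, Nat.mod_eq_of_lt g2] using this
    refine ⟨h3, ?_⟩
    rw [h3] at h
    exact Nat.eq_of_mul_eq_mul_right hq0 (by omega)
  refine ⟨?_, fun b hb b' hb' => zz_inj hq ha hqm b hb b' hb', ?_, ?_, ?_, ?_, by positivity,
    by positivity, hη0, ?_⟩
  · intro b hb
    obtain ⟨h1, h2, h3⟩ := mem_fam.mp hb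
    have hz0 : 0 ≤ zz m q b := by
      unfold zz
      have e1 : (q : ℤ) * b.2.2 ≤ q * m :=
        mul_le_mul_of_nonneg_left (by exact_mod_cast (by omega : b.2.2 ≤ m)) (by positivity)
      have e2 : (0 : ℤ) ≤ (2 * b.1 + 1 : ℤ) * b.2.1 := by positivity
      have e3 : (q : ℤ) * m ≤ (2 * b.1 + 1 : ℤ) * (4 * q * m) := by
        have : (0 : ℤ) ≤ (q : ℤ) * m := by positivity
        nlinarith
      linarith
    have hz1 : zz m q b ≤ 2 * (q * (4 * q * m)) := by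
      unfold zz
      have e1 : (0 : ℤ) ≤ (q : ℤ) * b.2.2 := by positivity
      have e2 : (2 * b.1 + 1 : ℤ) * b.2.1 ≤ q * (4 * q * m) := by
        have e4 : (2 * b.1 + 1) * b.2.1 ≤ q * (4 * q * m) := by
          apply Nat.mul_le_mul (by omega)
          have : 1 ≤ 4 * m := by omega
          nlinarith
        exact_mod_cast e4
      have e3 : (2 * b.1 + 1 : ℤ) * (4 * q * m) ≤ q * (4 * q * m) := by
        have e4 : (2 * b.1 + 1) * (4 * q * m) ≤ q * (4 * q * m) := Nat.mul_le_mul_right _ (by omega)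
        exact_mod_cast e4
      linarith
    have f0 : (0 : ℝ) ≤ zz m q b := by exact_mod_cast hz0
    have f1 : (zz m q b : ℝ) ≤ 2 * ((q : ℝ) * (4 * q * m : ℕ)) := by exact_mod_cast hz1
    refine ⟨by positivity, ?_⟩
    rw [one_div, inv_mul_le_iff₀ (by positivity)]
    linarith
  · intro b hb k hk k' hk'
    have hk1 : k < 4 * L := by omega
    have hk2 : 3 * L + k' < 4 * L := by omega
    obtain ⟨d1, d2⟩ := idx_div hb hL hk1
    obtain ⟨d3, d4⟩ := idx_div hb hL hk2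
    obtain ⟨c1, c2⟩ := coord hb hL hk1
    obtain ⟨c3, c4⟩ := coord hb hL hk2
    have n1 := near_zero (m := m) (T := 4 * q * m) hε hη ((idx_lt hb hL hk1).trans_le hn1)
      ((idx_lt hb hL hk2).trans_le hn1)
    have n2 := near_one (m := m) (T := 4 * q * m) hε hη ((idx_lt hb hL hk1).trans_le hn1)
      ((idx_lt hb hL hk2).trans_le hn1)
    rw [d1, d3] at n1
    rw [d1, d2, d3, d4] at n2
    refine ⟨_, ?_, n1, ?_⟩
    · rw [gx_sub hT0, le_div_iff₀ (by positivity)]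
      have e1 : ((b.2.1 + k * q : ℕ) : ℝ) ≤ m := by exact_mod_cast c1.le
      have e2 : ((b.2.1 + (3 * L + k') * q : ℕ) : ℝ) ≤ m := by exact_mod_cast c3.le
      have e3 : 8 * (m : ℝ) ≤ ((4 * q * m : ℕ) : ℝ) := by exact_mod_cast hT
      have e4 : 2 * ((L : ℝ) * q) ≤ ((b.2.1 + (3 * L + k') * q : ℕ) : ℝ) -
          ((b.2.1 + k * q : ℕ) : ℝ) := by
        have e5 : (b.2.1 + k * q) + 2 * (L * q) ≤ b.2.1 + (3 * L + k') * q := by nlinarith
        have e6 : (((b.2.1 + k * q) + 2 * (L * q) : ℕ) : ℝ) ≤ ((b.2.1 + (3 * L + k') * q : ℕ) : ℝ) := by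
          exact_mod_cast e5
        push_cast at e6 ⊢
        linarith
      have e7 : (((4 * q * m : ℕ) : ℝ) + ((b.2.1 + k * q : ℕ) : ℝ)) *
          (((4 * q * m : ℕ) : ℝ) + ((b.2.1 + (3 * L + k') * q : ℕ) : ℝ)) ≤
          (9 / 8 * ((4 * q * m : ℕ) : ℝ)) * (9 / 8 * ((4 * q * m : ℕ) : ℝ)) := by
        apply mul_le_mul <;> first | linarith | positivity
      have e8 : (L : ℝ) * q * ((((4 * q * m : ℕ) : ℝ) + ((b.2.1 + k * q : ℕ) : ℝ)) *
          (((4 * q * m : ℕ) : ℝ) + ((b.2.1 + (3 * L + k') * q : ℕ) : ℝ))) ≤ (L : ℝ) * q *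
          ((9 / 8 * ((4 * q * m : ℕ) : ℝ)) * (9 / 8 * ((4 * q * m : ℕ) : ℝ))) :=
        mul_le_mul_of_nonneg_left e7 (by positivity)
      have e9 : ((4 * q * m : ℕ) : ℝ) ^ 2 * (2 * ((L : ℝ) * q)) ≤ ((4 * q * m : ℕ) : ℝ) ^ 2 *
          (((b.2.1 + (3 * L + k') * q : ℕ) : ℝ) - ((b.2.1 + k * q : ℕ) : ℝ)) :=
        mul_le_mul_of_nonneg_left e4 (by positivity)
      have e10 : (0 : ℝ) ≤ (L : ℝ) * q * ((4 * q * m : ℕ) : ℝ) ^ 2 := by positivity
      nlinarith
    · have l1 := gy_line (T := 4 * q * m) (i := b.2.1 + k * q) (j := b.2.2 + k * (2 * b.1 + 1))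
        (q := q) (r := 2 * b.1 + 1) (e := (q : ℤ) * b.2.2 - (2 * b.1 + 1) * b.2.1) hT0 hq0
        (by push_cast; ring)
      have l2 := gy_line (T := 4 * q * m) (i := b.2.1 + (3 * L + k') * q)
        (j := b.2.2 + (3 * L + k') * (2 * b.1 + 1))
        (q := q) (r := 2 * b.1 + 1) (e := (q : ℤ) * b.2.2 - (2 * b.1 + 1) * b.2.1) hT0 hq0
        (by push_cast; ring)
      have hz : (((2 * b.1 + 1 : ℤ) * (4 * q * m : ℕ) - ((q : ℤ) * b.2.2 - (2 * b.1 + 1) * b.2.1) :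
          ℤ) : ℝ) = (zz m q b : ℝ) := by
        unfold zz
        push_cast
        ring
      rw [hz] at l1 l2
      rw [l1, l2] at n2
      have e : (gx (4 * q * m) (b.2.1 + (3 * L + k') * q) - gx (4 * q * m) (b.2.1 + k * q)) *
          (1 / ((q : ℝ) * (4 * q * m : ℕ)) * (zz m q b : ℝ)) =
          1 / ((q : ℝ) * (4 * q * m : ℕ)) * (zz m q b : ℝ) *
            gx (4 * q * m) (b.2.1 + (3 * L + k') * q) +
            (((q : ℤ) * b.2.2 - (2 * b.1 + 1) * b.2.1 : ℤ) : ℝ) / q -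
          (1 / ((q : ℝ) * (4 * q * m : ℕ)) * (zz m q b : ℝ) *
            gx (4 * q * m) (b.2.1 + k * q) +
            (((q : ℤ) * b.2.2 - (2 * b.1 + 1) * b.2.1 : ℤ) : ℝ) / q) := by
        ring
      rw [e]
      exact n2
  · intro b hb k hk k' hk' h
    exact (hik b hb b hb k k' (hinj b hb b hb k (by omega) k' (by omega) h).1).2
  · intro b hb k hk k' hk' h
    have := (hik b hb b hb _ _ (hinj b hb b hb (3 * L + k) (by omega) (3 * L + k') (by omega) h).1).2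
    omega
  · intro b hb b' hb' k hk k' hk' l hl l' hl' h h'
    obtain ⟨e1, e2⟩ := hinj b hb b' hb' k (by omega) l (by omega) h
    obtain ⟨f1, f2⟩ := hinj b hb b' hb' (3 * L + k') (by omega) (3 * L + l') (by omega) h'
    obtain ⟨e3, e4⟩ := hik b hb b' hb' _ _ e1
    obtain ⟨-, f4⟩ := hik b hb b' hb' _ _ f1
    obtain ⟨s, i, j⟩ := b
    obtain ⟨s', i', j'⟩ := b'
    simp only at e2 f2 e3
    subst e3 e4
    have f5 : k' = l' := by omega
    subst f5
    have hs : s = s' := by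
      have h1 : (j : ℤ) + k * (2 * s + 1) = j' + k * (2 * s' + 1) := by exact_mod_cast e2
      have h2 : (j : ℤ) + (3 * L + k') * (2 * s + 1) = j' + (3 * L + k') * (2 * s' + 1) := by
        exact_mod_cast f2
      have h3 : (3 * (L : ℤ) + k' - k) * ((s : ℤ) - s') = 0 := by linarith
      rcases mul_eq_zero.mp h3 with h4 | h4
      · exfalso
        have : (k : ℤ) < L := by exact_mod_cast hk
        have : (0 : ℤ) ≤ k' := by positivity
        omega
      · omega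
    subst hs
    have hj : j = j' := by omega
    rw [hj]
  · have : (1 : ℝ) ≤ (L : ℝ) * q := by nlinarith
    linarith

end

end Pool.Agent.U583.MC
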