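import Mathlib
import Pool.Agent.U583.MC.Fam

/-!
# Lower bound for the number of monotone paths, density, general position
-/

set_option autoImplicit false

namespace Pool.Agent.U583.MC

open Pool.Agent.R143.MonoPath

/-- the point set -/
noncomputable def pts (m T : ℕ) (ε : ℝ) (n : ℕ) : Finset Plane :=
  open scoped Classical in (Finset.range n).image (pt m T ε)

lemma mem_pts {m T n : ℕ} {ε : ℝ} {p : Plane} : p ∈ pts m T ε n ↔ ∃ k < n, pt m T ε k = p := by
  unfold pts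
  simp only [Finset.mem_image, Finset.mem_range]

section

variable {m q n L a : ℕ} {ε : ℝ}

/-- the parameters -/
structure Params (m q n L a : ℕ) (ε : ℝ) : Prop where
  hq : q = 2 ^ a
  ha : 0 < a
  hm : 16 ≤ m
  hqm : 4 * q ≤ m
  hL0 : 0 < L
  hL : 8 * q * L ≤ m
  hL2 : m ≤ 16 * q * L
  hm2 : m ≤ 16 * q ^ 4
  hn1 : m ^ 2 ≤ n
  hn2 : n ≤ m ^ 2 + 2 * m
  hε : 0 < ε
  hη : ε * (n : ℝ) ^ 2 ≤ 1 / (1024 * (q : ℝ) ^ 2)

variable (H : Params m q n L a ε)

include H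

lemma Params.two_le : 2 ≤ q := by
  rw [H.hq]
  calc 2 = 2 ^ 1 := rfl
    _ ≤ 2 ^ a := Nat.pow_le_pow_right (by norm_num) H.ha

lemma Params.eta4 : 1 / (1024 * (q : ℝ) ^ 2) ≤ 1 / 4 := by
  have h1 : (2 : ℝ) ≤ q := by exact_mod_cast H.two_le
  apply one_div_le_one_div_of_le (by norm_num)
  nlinarith

lemma Params.hT : 8 * m ≤ 4 * q * m := by
  have := H.two_le
  nlinarith

lemma Params.inj {k k' : ℕ} (hk : k < n) (hk' : k' < n)
    (h : pt m (4 * q * m) ε k = pt m (4 * q * m) ε k') : k = k' :=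
  pt_inj H.hm H.hT H.hn2 H.hε.le H.hη H.eta4 hk hk' h

lemma Params.card : (pts m (4 * q * m) ε n).card = n := by
  classical
  unfold pts
  rw [Finset.card_image_of_injOn, Finset.card_range]
  intro k hk k' hk' h
  exact H.inj (Finset.mem_range.mp hk) (Finset.mem_range.mp hk') h

/-- at most `581 q³` segments of the bundles lie on a monotone path -/
lemma Params.path {t : ℕ} {v : Fin t → Plane} (hv : IsMonotonePath (pts m (4 * q * m) ε n) v) :
    ∑ b ∈ fam m q, (seg L (fun b k => pt m (4 * q * m) ε (idx m q b k))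
      (fun b k => pt m (4 * q * m) ε (idx m q b (3 * L + k))) v b).card ≤ 581 * q ^ 3 := by
  obtain ⟨hA, u, hu, hm⟩ := hv
  have hq2 := H.two_le
  have hq2r : (2 : ℝ) ≤ q := by exact_mod_cast hq2
  have hqr : (0 : ℝ) < q := by linarith
  have hmr : (16 : ℝ) ≤ m := by exact_mod_cast H.hm
  have hLr : (1 : ℝ) ≤ L := by exact_mod_cast H.hL0
  have hL2 : (m : ℝ) ≤ 16 * q * L := by exact_mod_cast H.hL2
  have hm2 : (m : ℝ) ≤ 16 * q ^ 4 := by exact_mod_cast H.hm2
  have hT : ((4 * q * m : ℕ) : ℝ) = 4 * q * m := by push_cast; ring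
  have hB := bundles H.hq H.ha H.hm H.hqm H.hL0 H.hL H.hn1 H.hn2 H.hε.le H.hη H.eta4
  have h1 := total hB hm hu (D := 2 * m) (δ := 1 / (q : ℝ) ^ 3) (N := 64 * q ^ 3)
    (M := 512 * q ^ 3) (by positivity) (by
      intro i j
      obtain ⟨k, hk, hk2⟩ := mem_pts.mp (hA i)
      obtain ⟨k', hk', hk2'⟩ := mem_pts.mp (hA j)
      have d0 := diam_zero H.hm H.hT H.hn2 H.hε.le H.hη H.eta4 hk' hk
      have d1 := diam_one (m := m) H.hm H.hT H.hε.le H.hη H.eta4 hk' hk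
      rw [hk2, hk2'] at d0 d1
      rw [← inner_sub_left, inner_eq]
      have e0 : (v i - v j) 0 * u 0 ≤ 2 * m * |u 0| := by
        refine (le_abs_self _).trans ?_
        rw [abs_mul]
        exact mul_le_mul_of_nonneg_right d0 (abs_nonneg _)
      have e1 : (v i - v j) 1 * u 1 ≤ 2 * m * |u 1| := by
        refine (le_abs_self _).trans ?_
        rw [abs_mul]
        exact mul_le_mul_of_nonneg_right d1 (abs_nonneg _)
      unfold one
      linarith) (by positivity) (by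
      rw [div_le_div_iff₀ (by positivity) (by norm_num)]
      nlinarith [pow_le_pow_left₀ (by norm_num : (0 : ℝ) ≤ 2) hq2r 3]) (by
      rw [div_le_iff₀ (by positivity)]
      have e : (L : ℝ) * q * (1 / (q : ℝ) ^ 3) / 2 * (1024 * (q : ℝ) ^ 2) = 512 * L := by
        field_simp
        ring
      rw [e]
      linarith) (by
      rw [hT]
      have e : 1 / ((q : ℝ) * (4 * q * m)) * (L * q) = L / (4 * q * m) := by
        field_simp
      rw [e, mul_one_div, div_lt_div_iff₀ (by positivity) (by positivity)]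
      have : (m : ℝ) < 32 * q * L := by nlinarith
      nlinarith [mul_pos hqr hqr]) (by
      rw [div_le_iff₀ (by positivity)]
      refine H.eta4.trans ?_
      nlinarith) (by
      push_cast
      have e : 64 * (q : ℝ) ^ 3 * (L * q * (1 / (q : ℝ) ^ 3) / 2) = 32 * L * q := by
        field_simp
        ring
      rw [e]
      linarith) (by
      rw [hT]
      push_cast
      have e : 1 / ((q : ℝ) * (4 * q * m)) * (512 * (q : ℝ) ^ 3) = 128 * q / m := by
        field_simp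
        ring
      rw [e, mul_one_div, div_le_div_iff₀ (by positivity) (by positivity)]
      nlinarith)
  refine h1.trans ?_
  have h2 : 2 * L ≤ 4 * q ^ 3 := by
    have h3 : 8 * q * L ≤ 16 * q ^ 4 := H.hL.trans H.hm2
    have h4 : (8 * q) * L ≤ (8 * q) * (2 * q ^ 3) := by
      calc (8 * q) * L = 8 * q * L := rfl
        _ ≤ 16 * q ^ 4 := h3
        _ = (8 * q) * (2 * q ^ 3) := by ring
    have := Nat.le_of_mul_le_mul_left h4 (by omega)
    omega
  have h3 : 1 ≤ q ^ 3 := Nat.one_le_pow _ _ (by omega)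
  omega

/-- the lower bound for the number of paths -/
lemma Params.cover {K : ℕ} (hK : HasCover (pts m (4 * q * m) ε n) K) :
    m ^ 3 ≤ 1189888 * q ^ 3 * K := by
  classical
  obtain ⟨t, v, hv, hc⟩ := hK
  have hq2 := H.two_le
  have h1 : ∀ b ∈ fam m q, L ^ 2 ≤ ∑ s, (seg L (fun b k => pt m (4 * q * m) ε (idx m q b k))
      (fun b k => pt m (4 * q * m) ε (idx m q b (3 * L + k))) (v s) b).card := by
    intro b hb
    have h2 : Finset.range L ×ˢ Finset.range L ⊆ Finset.univ.biUnion fun s =>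
        seg L (fun b k => pt m (4 * q * m) ε (idx m q b k))
          (fun b k => pt m (4 * q * m) ε (idx m q b (3 * L + k))) (v s) b := by
      rintro ⟨k, k'⟩ hk
      obtain ⟨hk1, hk2⟩ := Finset.mem_product.mp hk
      simp only [Finset.mem_range] at hk1 hk2
      have i1 : idx m q b k < n := (idx_lt hb H.hL (by omega : k < 4 * L)).trans_le H.hn1
      have i2 : idx m q b (3 * L + k') < n :=
        (idx_lt hb H.hL (by omega : 3 * L + k' < 4 * L)).trans_le H.hn1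
      have hne : pt m (4 * q * m) ε (idx m q b k) ≠
          pt m (4 * q * m) ε (idx m q b (3 * L + k')) := by
        intro h
        have h3 := H.inj i1 i2 h
        have d1 := (idx_div hb H.hL (by omega : k < 4 * L)).1
        have d2 := (idx_div hb H.hL (by omega : 3 * L + k' < 4 * L)).1
        rw [h3, d2] at d1
        have h4 : (3 * L + k') * q = k * q := by omega
        have := Nat.eq_of_mul_eq_mul_right (by omega) h4
        omega
      obtain ⟨s, hs⟩ := hc _ (mem_pts.mpr ⟨_, i1, rfl⟩) _ (mem_pts.mpr ⟨_, i2, rfl⟩) hne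
      exact Finset.mem_biUnion.mpr ⟨s, Finset.mem_univ _, mem_seg.mpr ⟨⟨hk1, hk2⟩, hs⟩⟩
    have h3 := (Finset.card_le_card h2).trans Finset.card_biUnion_le
    rw [Finset.card_product, Finset.card_range] at h3
    calc L ^ 2 = L * L := by ring
      _ ≤ _ := h3
  have h2 : (fam m q).card * L ^ 2 ≤ K * (581 * q ^ 3) := by
    calc (fam m q).card * L ^ 2 = ∑ b ∈ fam m q, L ^ 2 := by rw [Finset.sum_const, smul_eq_mul]
      _ ≤ ∑ b ∈ fam m q, ∑ s, (seg L (fun b k => pt m (4 * q * m) ε (idx m q b k))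
          (fun b k => pt m (4 * q * m) ε (idx m q b (3 * L + k))) (v s) b).card :=
        Finset.sum_le_sum h1
      _ = ∑ s, ∑ b ∈ fam m q, (seg L (fun b k => pt m (4 * q * m) ε (idx m q b k))
          (fun b k => pt m (4 * q * m) ε (idx m q b (3 * L + k))) (v s) b).card :=
        Finset.sum_comm
      _ ≤ ∑ _s : Fin K, 581 * q ^ 3 := Finset.sum_le_sum fun s _ => H.path (hv s)
      _ = K * (581 * q ^ 3) := by
        rw [Finset.sum_const, smul_eq_mul, Finset.card_univ, Fintype.card_fin]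
  have h3 : (fam m q).card = q / 2 * (q * (m / 2)) := by
    unfold fam
    rw [Finset.card_product, Finset.card_product, Finset.card_range, Finset.card_range,
      Finset.card_range]
  rw [h3] at h2
  have h4 : q ≤ 2 * (q / 2) := by
    obtain ⟨c, hc⟩ : ∃ c, q = 2 * c := by
      refine ⟨2 ^ (a - 1), ?_⟩
      rw [H.hq, ← pow_succ']
      congr 1
      have := H.ha
      omega
    omega
  have h5 : m ≤ 4 * (m / 2) := by
    have := H.hm
    omega
  have h6 : q * (q * m) * m ^ 2 ≤ (2 * (q / 2)) * (q * (4 * (m / 2))) * (16 * q * L) ^ 2 := by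
    apply Nat.mul_le_mul
    · exact Nat.mul_le_mul h4 (Nat.mul_le_mul_left _ h5)
    · exact Nat.pow_le_pow_left H.hL2 2
  have h7 : (2 * (q / 2)) * (q * (4 * (m / 2))) * (16 * q * L) ^ 2 =
      2048 * q ^ 2 * (q / 2 * (q * (m / 2)) * L ^ 2) := by ring
  have h8 : q ^ 2 * m ^ 3 ≤ q ^ 2 * (1189888 * q ^ 3 * K) := by
    calc q ^ 2 * m ^ 3 = q * (q * m) * m ^ 2 := by ring
      _ ≤ 2048 * q ^ 2 * (q / 2 * (q * (m / 2)) * L ^ 2) := by rw [← h7]; exact h6
      _ ≤ 2048 * q ^ 2 * (K * (581 * q ^ 3)) := Nat.mul_le_mul_left _ h2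
      _ = q ^ 2 * (1189888 * q ^ 3 * K) := by ring
  exact Nat.le_of_mul_le_mul_left h8 (by positivity)

/-- density -/
lemma Params.dense : IsDense 8 (pts m (4 * q * m) ε n) := by
  have hcard := H.card
  intro a ha b hb c hc d hd hcd
  rw [hcard]
  obtain ⟨k1, l1, rfl⟩ := mem_pts.mp ha
  obtain ⟨k2, l2, rfl⟩ := mem_pts.mp hb
  obtain ⟨k3, l3, rfl⟩ := mem_pts.mp hc
  obtain ⟨k4, l4, rfl⟩ := mem_pts.mp hd
  have hmr : (16 : ℝ) ≤ m := by exact_mod_cast H.hm
  have h1 : dist (pt m (4 * q * m) ε k1) (pt m (4 * q * m) ε k2) ≤ 4 * m := by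
    have d0 := diam_zero H.hm H.hT H.hn2 H.hε.le H.hη H.eta4 l2 l1
    have d1 := diam_one (m := m) H.hm H.hT H.hε.le H.hη H.eta4 l2 l1
    rw [dist_eq_norm, EuclideanSpace.norm_eq, Real.sqrt_le_left (by positivity),
      Fin.sum_univ_two, Real.norm_eq_abs, Real.norm_eq_abs]
    have e0 := pow_le_pow_left₀ (abs_nonneg _) d0 2
    have e1 := pow_le_pow_left₀ (abs_nonneg _) d1 2
    nlinarith
  have h2 : 1 / 2 ≤ dist (pt m (4 * q * m) ε k3) (pt m (4 * q * m) ε k4) := by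
    have hne : k4 ≠ k3 := by
      intro h
      rw [h] at hcd
      exact hcd rfl
    rw [dist_eq_norm]
    rcases sep_pt H.hm H.hT H.hn2 H.hε.le H.hη H.eta4 l4 l3 hne with h | h
    · refine h.trans ?_
      rw [← Real.norm_eq_abs]
      exact PiLp.norm_apply_le _ 0
    · refine h.trans ?_
      rw [← Real.norm_eq_abs]
      exact PiLp.norm_apply_le _ 1
  have h3 : (m : ℝ) ≤ √(n : ℝ) := by
    apply Real.le_sqrt_of_sq_le
    exact_mod_cast H.hn1
  have h4 : 0 ≤ √(n : ℝ) := Real.sqrt_nonneg _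
  nlinarith

end

/-- The parameters exist for all `n ≥ 256`, with points in general position. -/
theorem exists_params (n : ℕ) (hn : 256 ≤ n) : ∃ (m q L a : ℕ) (ε : ℝ), Params m q n L a ε ∧
    q ^ 4 ≤ m ∧ GeneralPosition (pts m (4 * q * m) ε n) := by
  classical
  obtain ⟨m, hm⟩ : ∃ m, m = Nat.sqrt n := ⟨_, rfl⟩
  have hm1 : m ^ 2 ≤ n := by
    rw [hm]
    exact Nat.sqrt_le' n
  have hm2 : n ≤ m ^ 2 + 2 * m := by
    have := Nat.lt_succ_sqrt' n
    rw [← hm] at this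
    have e : (m + 1) ^ 2 = m ^ 2 + 2 * m + 1 := by ring
    have : n < (m + 1) ^ 2 := this
    omega
  have hm16 : 16 ≤ m := by
    rw [hm]
    exact Nat.le_sqrt'.mpr (by omega)
  obtain ⟨a, ha⟩ : ∃ a, a = Nat.log 2 m / 4 := ⟨_, rfl⟩
  have hlog : 4 ≤ Nat.log 2 m := by
    have : 2 ^ 4 ≤ m := by omega
    exact Nat.le_log_of_pow_le (by norm_num) this
  have ha0 : 0 < a := by omega
  have hq4 : (2 ^ a) ^ 4 ≤ m := by
    rw [← pow_mul]
    exact (Nat.pow_le_pow_right (by norm_num) (by omega)).trans (Nat.pow_log_le_self 2 (by omega))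
  have hq5 : m < 16 * (2 ^ a) ^ 4 := by
    have h1 : m < 2 ^ (Nat.log 2 m + 1) := Nat.lt_pow_succ_log_self (by norm_num) m
    refine h1.trans_le ?_
    have e : 16 * (2 ^ a) ^ 4 = 2 ^ (4 * a + 4) := by
      rw [← pow_mul, pow_add]
      ring
    rw [e]
    exact Nat.pow_le_pow_right (by norm_num) (by omega)
  obtain ⟨q, hq⟩ : ∃ q, q = 2 ^ a := ⟨_, rfl⟩
  rw [← hq] at hq4 hq5
  have hq2 : 2 ≤ q := by
    rw [hq]
    calc 2 = 2 ^ 1 := rfl
      _ ≤ 2 ^ a := Nat.pow_le_pow_right (by norm_num) ha0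
  have h8 : 8 * q ≤ m := by
    have : 8 ≤ q ^ 3 := by
      calc 8 = 2 ^ 3 := rfl
        _ ≤ q ^ 3 := Nat.pow_le_pow_left hq2 3
    calc 8 * q ≤ q ^ 3 * q := Nat.mul_le_mul_right _ this
      _ = q ^ 4 := by ring
      _ ≤ m := hq4
  obtain ⟨L, hL⟩ : ∃ L, L = m / (8 * q) := ⟨_, rfl⟩
  have hL0 : 0 < L := by
    rw [hL]
    exact Nat.div_pos h8 (by omega)
  have hL1 : 8 * q * L ≤ m := by
    rw [hL]
    exact Nat.mul_div_le m (8 * q)
  have hL2 : m ≤ 16 * q * L := by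
    have h1 : m < 8 * q * (L + 1) := by
      rw [hL]
      exact Nat.lt_mul_div_succ m (by omega)
    have h2 : 8 * q * (L + 1) ≤ 8 * q * (2 * L) := Nat.mul_le_mul_left _ (by omega)
    have e : 8 * q * (2 * L) = 16 * q * L := by ring
    omega
  have hqr : (0 : ℝ) < q := by exact_mod_cast (by omega : 0 < q)
  have hnr : (0 : ℝ) < n := by exact_mod_cast (by omega : 0 < n)
  obtain ⟨ε, hε, hε1, hgp⟩ := exists_eps n m (4 * q * m)
    (ε₀ := 1 / (1024 * (q : ℝ) ^ 2) / (n : ℝ) ^ 2) (by positivity)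
  have H : Params m q n L a ε := ⟨hq, ha0, hm16, by omega, hL0, hL1, hL2, hq5.le, hm1, hm2, hε, by
    rw [lt_div_iff₀ (by positivity)] at hε1
    exact hε1.le⟩
  refine ⟨m, q, L, a, ε, H, hq4, ?_⟩
  intro x hx y hy w hw hxy hyw hxw
  obtain ⟨k1, l1, rfl⟩ := mem_pts.mp hx
  obtain ⟨k2, l2, rfl⟩ := mem_pts.mp hy
  obtain ⟨k3, l3, rfl⟩ := mem_pts.mp hw
  exact hgp k1 l1 k2 l2 k3 l3 (fun h => hxy (by rw [h])) (fun h => hyw (by rw [h]))
    (fun h => hxw (by rw [h]))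

/-- **Dense point sets whose monotone path covers have at least `c n^(9/8)` paths.** -/
theorem exists_dense (n : ℕ) (hn : 256 ≤ n) : ∃ A : Finset Plane, A.card = n ∧ GeneralPosition A ∧
    IsDense 8 A ∧ (n : ℝ) ^ (9 / 8 : ℝ) / 5000000 ≤ mc A := by
  obtain ⟨m, q, L, a, ε, H, hq4, hgp⟩ := exists_params n hn
  refine ⟨pts m (4 * q * m) ε n, H.card, hgp, H.dense, ?_⟩
  have h1 := H.cover (hasCover_mc _)
  obtain ⟨K, hK⟩ : ∃ K, K = mc (pts m (4 * q * m) ε n) := ⟨_, rfl⟩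
  rw [← hK] at h1 ⊢
  have hm16 : (16 : ℝ) ≤ m := by exact_mod_cast H.hm
  have hm0 : (0 : ℝ) < m := by linarith
  have h2 : (m : ℝ) ^ 3 ≤ 1189888 * (q : ℝ) ^ 3 * K := by exact_mod_cast h1
  have hq0 : (0 : ℝ) ≤ q := Nat.cast_nonneg _
  have h3 : (q : ℝ) ^ 3 ≤ (m : ℝ) ^ (3 / 4 : ℝ) := by
    have h4 : (q : ℝ) ^ 4 ≤ m := by exact_mod_cast hq4
    have h5 : ((q : ℝ) ^ 4) ^ (3 / 4 : ℝ) ≤ (m : ℝ) ^ (3 / 4 : ℝ) :=
      Real.rpow_le_rpow (by positivity) h4 (by norm_num)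
    have h6 : ((q : ℝ) ^ 4) ^ (3 / 4 : ℝ) = (q : ℝ) ^ 3 := by
      rw [← Real.rpow_natCast, ← Real.rpow_mul hq0]
      norm_num
    rwa [h6] at h5
  have hK0 : (0 : ℝ) ≤ K := Nat.cast_nonneg _
  have h4 : (m : ℝ) ^ (9 / 4 : ℝ) ≤ 1189888 * K := by
    have h5 : (m : ℝ) ^ (9 / 4 : ℝ) * (m : ℝ) ^ (3 / 4 : ℝ) = (m : ℝ) ^ 3 := by
      rw [← Real.rpow_add hm0, ← Real.rpow_natCast]
      norm_num
    have h6 : (m : ℝ) ^ (9 / 4 : ℝ) * (m : ℝ) ^ (3 / 4 : ℝ) ≤
        1189888 * K * (m : ℝ) ^ (3 / 4 : ℝ) := by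
      rw [h5]
      refine h2.trans ?_
      have := mul_le_mul_of_nonneg_left h3 (by positivity : (0 : ℝ) ≤ 1189888 * K)
      linarith
    exact le_of_mul_le_mul_right h6 (Real.rpow_pos_of_pos hm0 _)
  have h5 : (n : ℝ) ≤ 2 * (m : ℝ) ^ 2 := by
    have h6 : (n : ℝ) ≤ (m : ℝ) ^ 2 + 2 * m := by exact_mod_cast H.hn2
    nlinarith
  have h6 : (n : ℝ) ^ (9 / 8 : ℝ) ≤ 4 * (m : ℝ) ^ (9 / 4 : ℝ) := by
    have h7 : (n : ℝ) ^ (9 / 8 : ℝ) ≤ (2 * (m : ℝ) ^ 2) ^ (9 / 8 : ℝ) :=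
      Real.rpow_le_rpow (Nat.cast_nonneg _) h5 (by norm_num)
    have h8 : (2 * (m : ℝ) ^ 2) ^ (9 / 8 : ℝ) = (2 : ℝ) ^ (9 / 8 : ℝ) * (m : ℝ) ^ (9 / 4 : ℝ) := by
      rw [Real.mul_rpow (by norm_num) (by positivity), ← Real.rpow_natCast (m : ℝ) 2,
        ← Real.rpow_mul hm0.le]
      norm_num
    have h9 : (2 : ℝ) ^ (9 / 8 : ℝ) ≤ 4 := by
      calc (2 : ℝ) ^ (9 / 8 : ℝ) ≤ (2 : ℝ) ^ (2 : ℝ) :=
            Real.rpow_le_rpow_of_exponent_le (by norm_num) (by norm_num)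
        _ = 4 := by norm_num
    rw [h8] at h7
    exact h7.trans (mul_le_mul_of_nonneg_right h9 (Real.rpow_nonneg hm0.le _))
  rw [div_le_iff₀ (by norm_num)]
  linarith

end Pool.Agent.U583.MC
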